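import Pool.Agent.H11Cara.Defs

namespace Pool.Agent.H7Cara

open Pool.Agent.H11Cara

/-- The set of all `‖h(z)‖` with `h ∈ M` and `‖z‖ = r`. -/
def vals (n : ℕ) (r : ℝ) : Set ℝ :=
  {x | ∃ h ∈ Caratheodory n, ∃ z : EuclideanSpace ℂ (Fin n), ‖z‖ = r ∧ x = ‖h z‖}

/-- `m_n(r) = sup {‖h(z)‖ : h ∈ M, ‖z‖ = r}`. -/
noncomputable def mn (n : ℕ) (r : ℝ) : ℝ := sSup (vals n r)

end Pool.Agent.H7Cara
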