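import Pool.Agent.Results.MP_ea326e_an.Growth

/-!
MP_ea326e_an, Q1 (partial): `r² / (1 - r²)^(3/2) ≤ m_n(r) ≤ r + 3 r² / (1 - r)^(3/2)`.
-/

open Metric

namespace Pool.Agent.H7Cara.Main

open Pool.Agent.H11Cara Pool.Agent.Results.MP_ea326e_an.Growth

variable {n : ℕ}

noncomputable def ga (ρ : ℝ) (ζ : ℂ) : ℂ := ζ ^ 2 * (((√(1 - ρ ^ 2) : ℝ) : ℂ) / (1 - (ρ : ℂ) * ζ) ^ 2)
noncomputable def gb (ρ : ℝ) (ζ : ℂ) : ℂ := ζ ^ 2 * (2 * (ρ : ℂ) / (1 - (ρ : ℂ) * ζ))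

noncomputable def ex (i j : Fin n) (ρ : ℝ) : Map n :=
  fun z => z + (ga ρ (z j)) • EuclideanSpace.single i (1 : ℂ) + (gb ρ (z j)) • EuclideanSpace.single j (1 : ℂ)

lemma ne {ρ : ℝ} (h0 : 0 ≤ ρ) (h1 : ρ < 1) {ζ : ℂ} (hζ : ‖ζ‖ < 1) : 1 - (ρ : ℂ) * ζ ≠ 0 := by
  intro h
  have h2 : (ρ : ℂ) * ζ = 1 := (sub_eq_zero.1 h).symm
  have h3 : ‖(ρ : ℂ) * ζ‖ = 1 := by rw [h2]; simp
  rw [norm_mul, Complex.norm_real, Real.norm_of_nonneg h0] at h3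
  nlinarith [norm_nonneg ζ]

lemma ga_an {ρ : ℝ} (h0 : 0 ≤ ρ) (h1 : ρ < 1) {ζ : ℂ} (hζ : ‖ζ‖ < 1) : AnalyticAt ℂ (ga ρ) ζ := by
  unfold ga
  exact (analyticAt_id.pow 2).mul (analyticAt_const.div
    ((analyticAt_const.sub (analyticAt_const.mul analyticAt_id)).pow 2) (pow_ne_zero 2 (ne h0 h1 hζ)))

lemma gb_an {ρ : ℝ} (h0 : 0 ≤ ρ) (h1 : ρ < 1) {ζ : ℂ} (hζ : ‖ζ‖ < 1) : AnalyticAt ℂ (gb ρ) ζ := by
  unfold gb
  exact (analyticAt_id.pow 2).mul (analyticAt_const.div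
    (analyticAt_const.sub (analyticAt_const.mul analyticAt_id)) (ne h0 h1 hζ))

lemma sq_deriv {F : ℂ → ℂ} (hF : DifferentiableAt ℂ F 0) : HasDerivAt (fun ζ : ℂ => ζ ^ 2 * F ζ) 0 0 := by
  have h := (hasDerivAt_pow 2 (0 : ℂ)).mul hF.hasDerivAt
  have h2 : HasDerivAt (fun ζ : ℂ => ζ ^ 2 * F ζ) _ 0 := h
  convert h2 using 1
  simp

lemma ga_d {ρ : ℝ} (h0 : 0 ≤ ρ) (h1 : ρ < 1) : HasDerivAt (ga ρ) 0 0 := by
  apply sq_deriv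
  have := ne h0 h1 (ζ := 0) (by simp)
  exact (AnalyticAt.div (f := fun _ : ℂ => ((√(1 - ρ ^ 2) : ℝ) : ℂ)) (g := fun ζ : ℂ => (1 - (ρ : ℂ) * ζ) ^ 2) analyticAt_const
    ((analyticAt_const.sub (analyticAt_const.mul analyticAt_id)).pow 2) (pow_ne_zero 2 this)).differentiableAt

lemma gb_d {ρ : ℝ} (h0 : 0 ≤ ρ) (h1 : ρ < 1) : HasDerivAt (gb ρ) 0 0 := by
  apply sq_deriv
  have := ne h0 h1 (ζ := 0) (by simp)
  exact (AnalyticAt.div (f := fun _ : ℂ => 2 * (ρ : ℂ)) (g := fun ζ : ℂ => (1 - (ρ : ℂ) * ζ)) analyticAt_const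
    (analyticAt_const.sub (analyticAt_const.mul analyticAt_id)) this).differentiableAt

lemma re_gb {ρ : ℝ} {ζ : ℂ} (hne : 1 - (ρ : ℂ) * ζ ≠ 0) :
    (gb ρ ζ * (starRingEnd ℂ) ζ).re = ‖ζ‖ ^ 2 * ((1 - ρ ^ 2 * ‖ζ‖ ^ 2) / ‖1 - (ρ : ℂ) * ζ‖ ^ 2 - 1) := by
  have h1 : gb ρ ζ * (starRingEnd ℂ) ζ = ((‖ζ‖ ^ 2 : ℝ) : ℂ) * (2 * (ρ : ℂ) * ζ / (1 - (ρ : ℂ) * ζ)) := by
    unfold gb
    push_cast
    rw [← Complex.mul_conj']
    ring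
  rw [h1, Complex.re_ofReal_mul]
  congr 1
  have hw : ‖1 - (ρ : ℂ) * ζ‖ ^ 2 ≠ 0 := by positivity
  rw [Complex.div_re, ← Complex.sq_norm]
  have e1 : ‖1 - (ρ : ℂ) * ζ‖ ^ 2 = (1 - ρ * ζ.re) ^ 2 + (ρ * ζ.im) ^ 2 := by
    rw [Complex.sq_norm, Complex.normSq_apply]; simp; ring
  have e2 : ‖ζ‖ ^ 2 = ζ.re ^ 2 + ζ.im ^ 2 := by
    rw [Complex.sq_norm, Complex.normSq_apply]; ring
  rw [← add_div, div_sub_one hw]
  congr 1
  rw [e1, e2]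
  simp
  ring

lemma ex_pos (i j : Fin n) (hij : i ≠ j) {ρ : ℝ} (h0 : 0 ≤ ρ) (h1 : ρ < 1) (z : EuclideanSpace ℂ (Fin n))
    (hz : z ∈ ball (0 : EuclideanSpace ℂ (Fin n)) 1) (hz0 : z ≠ 0) :
    0 < (inner ℂ z (ex i j ρ z)).re := by
  have hN : ‖z‖ < 1 := by simpa using hz
  have hN0 : 0 < ‖z‖ := norm_pos_iff.mpr hz0
  have h3 : ‖z i‖ ^ 2 + ‖z j‖ ^ 2 ≤ ‖z‖ ^ 2 := by
    rw [EuclideanSpace.norm_sq_eq]
    have : ({i, j} : Finset (Fin n)) ⊆ Finset.univ := Finset.subset_univ _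
    have h5 := Finset.sum_le_sum_of_subset_of_nonneg (f := fun k => ‖z k‖ ^ 2) this
      (fun k _ _ => sq_nonneg _)
    rw [Finset.sum_pair hij] at h5
    exact h5
  have hN2 : ‖z‖ ^ 2 < 1 := by nlinarith
  have hj : ‖z j‖ < 1 := by nlinarith [sq_nonneg ‖z i‖, norm_nonneg (z j)]
  have hne := ne h0 h1 hj
  have h2 : inner ℂ z (ex i j ρ z) = ((‖z‖ : ℝ) : ℂ) ^ 2 +
      ga ρ (z j) * (starRingEnd ℂ) (z i) + gb ρ (z j) * (starRingEnd ℂ) (z j) := by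
    unfold ex
    rw [inner_add_right, inner_add_right, inner_smul_right, inner_smul_right, inner_self_eq_norm_sq_to_K,
      EuclideanSpace.inner_single_right, EuclideanSpace.inner_single_right]
    simp
  have hr0 : (((‖z‖ : ℝ) : ℂ) ^ 2).re = ‖z‖ ^ 2 := by
    rw [← Complex.ofReal_pow, Complex.ofReal_re]
  rw [h2, Complex.add_re, Complex.add_re, hr0, re_gb hne]
  have hw : 0 < ‖1 - (ρ : ℂ) * z j‖ ^ 2 := by positivity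
  have hd : 0 < 1 - ρ ^ 2 := by nlinarith
  have hg : ‖ga ρ (z j) * (starRingEnd ℂ) (z i)‖ = ‖z j‖ ^ 2 * (√(1 - ρ ^ 2) * ‖z i‖) / ‖1 - (ρ : ℂ) * z j‖ ^ 2 := by
    unfold ga
    rw [norm_mul, norm_mul, norm_pow, norm_div, norm_pow, Complex.norm_real, Complex.norm_conj,
      Real.norm_of_nonneg (Real.sqrt_nonneg _)]
    ring
  have h7 : -‖ga ρ (z j) * (starRingEnd ℂ) (z i)‖ ≤ (ga ρ (z j) * (starRingEnd ℂ) (z i)).re :=
    (abs_le.mp (Complex.abs_re_le_norm _)).1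
  rw [hg] at h7
  set a := ‖z i‖ with ha
  set t := ‖z j‖ with ht
  set w := ‖1 - (ρ : ℂ) * z j‖ ^ 2 with hwd
  have ha0 : 0 ≤ a := norm_nonneg _
  have ht0 : 0 ≤ t := norm_nonneg _
  have hs := Real.sq_sqrt hd.le
  have hs0 := Real.sqrt_nonneg (1 - ρ ^ 2)
  have hρ2 : 0 ≤ ρ ^ 2 := sq_nonneg _
  have hst : √(1 - ρ ^ 2) * a < 1 - ρ ^ 2 * t ^ 2 := by
    have ht1 : t ^ 2 < 1 := by nlinarith
    have hpos : 0 < 1 - ρ ^ 2 * t ^ 2 := by nlinarith [mul_nonneg hρ2 (by linarith : 0 ≤ 1 - t ^ 2)]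
    apply lt_of_pow_lt_pow_left₀ 2 hpos.le
    rw [mul_pow, hs]
    have u1 : (1 - ρ ^ 2) * a ^ 2 < (1 - ρ ^ 2) * (1 - t ^ 2) := by
      apply mul_lt_mul_of_pos_left _ hd; linarith
    have u2 : (1 - ρ ^ 2) * (1 - t ^ 2) ≤ (1 - ρ ^ 2 * t ^ 2) * (1 - ρ ^ 2 * t ^ 2) := by
      apply mul_le_mul _ _ (by linarith) hpos.le
      · nlinarith [mul_nonneg hρ2 (by linarith : 0 ≤ 1 - t ^ 2)]
      · nlinarith [mul_nonneg (sq_nonneg t) hd.le]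
    nlinarith
  have hfin : t ^ 2 * ((1 - ρ ^ 2 * t ^ 2) / w - 1) - t ^ 2 * (√(1 - ρ ^ 2) * a) / w
      = t ^ 2 * ((1 - ρ ^ 2 * t ^ 2 - √(1 - ρ ^ 2) * a) / w) - t ^ 2 := by
    field_simp
    ring
  have hq : 0 < (1 - ρ ^ 2 * t ^ 2 - √(1 - ρ ^ 2) * a) / w := div_pos (by linarith) hw
  rcases eq_or_lt_of_le ht0 with h | h
  · have : t ^ 2 = 0 := by rw [← h]; ring
    rw [this] at h7 ⊢
    simp at h7 ⊢
    nlinarith [sq_nonneg ‖z‖]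
  · have : 0 < t ^ 2 * ((1 - ρ ^ 2 * t ^ 2 - √(1 - ρ ^ 2) * a) / w) := by positivity
    nlinarith [sq_nonneg a]

lemma ex_mem (i j : Fin n) (hij : i ≠ j) {ρ : ℝ} (h0 : 0 ≤ ρ) (h1 : ρ < 1) :
    ex i j ρ ∈ Caratheodory n := by
  have hp : ∀ z : EuclideanSpace ℂ (Fin n), AnalyticAt ℂ (fun z : EuclideanSpace ℂ (Fin n) => z j) z :=
    fun z => (EuclideanSpace.proj (𝕜 := ℂ) j).analyticAt z
  refine ⟨?_, ?_, ?_, fun z hz hz0 => ex_pos i j hij h0 h1 z hz hz0⟩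
  · intro z hz
    have hj : ‖z j‖ < 1 := (PiLp.norm_apply_le z j).trans_lt (mem_ball_zero_iff.1 hz)
    have a1 := AnalyticAt.comp (g := ga ρ) (f := fun z : EuclideanSpace ℂ (Fin n) => z j) (x := z)
      (ga_an h0 h1 hj) (hp z)
    have a2 := AnalyticAt.comp (g := gb ρ) (f := fun z : EuclideanSpace ℂ (Fin n) => z j) (x := z)
      (gb_an h0 h1 hj) (hp z)
    exact (analyticAt_id.add (a1.smul analyticAt_const)).add (a2.smul analyticAt_const)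
  · simp [ex, ga, gb]
  · have hpr : HasFDerivAt (fun z : EuclideanSpace ℂ (Fin n) => z j)
      (EuclideanSpace.proj (𝕜 := ℂ) j) 0 := (EuclideanSpace.proj (𝕜 := ℂ) j).hasFDerivAt
    have c1 : HasDerivAt (ga ρ) 0 ((0 : EuclideanSpace ℂ (Fin n)) j) := by simpa using ga_d h0 h1
    have c2 : HasDerivAt (gb ρ) 0 ((0 : EuclideanSpace ℂ (Fin n)) j) := by simpa using gb_d h0 h1
    have b1 := HasFDerivAt.comp (g := ga ρ) (f := fun z : EuclideanSpace ℂ (Fin n) => z j)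
      (0 : EuclideanSpace ℂ (Fin n)) c1.hasFDerivAt hpr
    have b2 := HasFDerivAt.comp (g := gb ρ) (f := fun z : EuclideanSpace ℂ (Fin n) => z j)
      (0 : EuclideanSpace ℂ (Fin n)) c2.hasFDerivAt hpr
    have b3 := ((hasFDerivAt_id (𝕜 := ℂ) (0 : EuclideanSpace ℂ (Fin n))).add
      (b1.smul_const (EuclideanSpace.single i (1 : ℂ)))).add (b2.smul_const (EuclideanSpace.single j (1 : ℂ)))
    have b4 : HasFDerivAt (ex i j ρ) _ 0 := b3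
    exact b4.congr_fderiv (by ext v; simp)

theorem main : ∀ n : ℕ, 2 ≤ n → ∀ r : ℝ, 0 < r → r < 1 →
    (vals n r).Nonempty ∧ BddAbove (vals n r) ∧
      r ^ 2 / ((1 - r ^ 2) * √(1 - r ^ 2)) ≤ mn n r ∧
      mn n r ≤ r + 3 * r ^ 2 / ((1 - r) * √(1 - r)) := by
  intro n hn r hr0 hr1
  obtain ⟨c1, c2, c3⟩ := Pool.Agent.Results.MP_ea326e_an.Growth.result n hn r hr0 hr1
  refine ⟨c1, c2, ?_, c3⟩
  let i : Fin n := ⟨0, by omega⟩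
  let j : Fin n := ⟨1, by omega⟩
  have hij : i ≠ j := by
    intro h; have := congrArg Fin.val h; simp [i, j] at this
  have hmem := ex_mem i j hij hr0.le hr1
  set z : EuclideanSpace ℂ (Fin n) := EuclideanSpace.single j (r : ℂ) with hz
  have hzr : ‖z‖ = r := by simp [hz, abs_of_pos hr0]
  have hv : ‖ex i j r z‖ ∈ vals n r := ⟨_, hmem, z, hzr, rfl⟩
  refine le_trans ?_ (le_csSup c2 hv)
  have h1 : ‖ex i j r z i‖ ≤ ‖ex i j r z‖ := PiLp.norm_apply_le _ i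
  refine le_trans (le_of_eq ?_) h1
  have hd : 0 < 1 - r ^ 2 := by nlinarith
  have h2 : ex i j r z i = ga r (r : ℂ) := by
    simp [ex, hz, hij]
  rw [h2]
  have h3 : ga r (r : ℂ) = ((r ^ 2 * (√(1 - r ^ 2) / (1 - r * r) ^ 2) : ℝ) : ℂ) := by
    unfold ga; push_cast; ring
  rw [h3, Complex.norm_real, Real.norm_of_nonneg (by positivity)]
  have hs := Real.sq_sqrt hd.le
  have hs0 := Real.sqrt_pos.2 hd
  rw [show (1 - r * r) = 1 - r ^ 2 by ring]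
  generalize √(1 - r ^ 2) = s at hs hs0 ⊢
  rw [← hs]
  field_simp

end Pool.Agent.H7Cara.Main
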